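import Pool.Agent.TH901.H2A.Stm

set_option autoImplicit false

namespace Pool.Agent.TH920.H2A

open Pool.Agent.TH901.H2A Pool.Agent.Helper741

section

variable {B : Type} (M : CoxeterMatrix B)

theorem mv_two {p q : B × B} (h : Mv M p q) : M p.1 p.2 = 2 ∧ M q.1 q.2 = 2 := by
  cases h with
  | left h1 h2 h3 => exact ⟨h1, h2⟩
  | right h1 h2 h3 => exact ⟨h1, h2⟩
  | swap h1 h2 h3 => exact ⟨h1, by rw [M.symmetric]; exact h1⟩

theorem eqv_two {p q : B × B} (h : Eqv M p q) : M p.1 p.2 = 2 ↔ M q.1 q.2 = 2 := by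
  induction h with
  | rel x y h => exact ⟨fun _ => (mv_two M h).2, fun _ => (mv_two M h).1⟩
  | refl x => exact Iff.rfl
  | symm x y _ ih => exact ih.symm
  | trans x y z _ _ ih1 ih2 => exact ih1.trans ih2

theorem mv_swap {p q : B × B} (h : Mv M p q) : Mv M p.swap q.swap := by
  cases h with
  | left h1 h2 h3 =>
    exact Mv.right (by rw [M.symmetric]; exact h1) (by rw [M.symmetric]; exact h2) h3
  | right h1 h2 h3 =>
    exact Mv.left (by rw [M.symmetric]; exact h1) (by rw [M.symmetric]; exact h2) h3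
  | swap h1 h2 h3 =>
    exact Mv.swap (by rw [M.symmetric]; exact h1) (by rw [M.symmetric]; exact h3)
      (by rw [M.symmetric]; exact h2)

theorem eqv_swap {p q : B × B} (h : Eqv M p q) : Eqv M p.swap q.swap := by
  induction h with
  | rel x y h => exact Relation.EqvGen.rel _ _ (mv_swap M h)
  | refl x => exact Relation.EqvGen.refl _
  | symm x y _ ih => exact Relation.EqvGen.symm _ _ ih
  | trans x y z _ _ ih1 ih2 => exact Relation.EqvGen.trans _ _ _ ih1 ih2

end

section

variable {B : Type} [Fintype B] [DecidableEq B] (M : CoxeterMatrix B)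

/-- the class of the relator `p` -/
def cl (p : B × B) : (B × B → ℤ) ⧸ relK M :=
  QuotientAddGroup.mk' (relK M) (Pi.single p 1)

omit [Fintype B] in
theorem cl_zero {i j : B} (h : i = j ∨ M i j = 0) : cl M (i, j) = 0 := by
  unfold cl
  rw [QuotientAddGroup.mk'_apply, QuotientAddGroup.eq_zero_iff]
  exact AddSubgroup.subset_closure (Or.inl (Or.inl (Or.inl ⟨i, j, h, rfl⟩)))

omit [Fintype B] in
theorem cl_add (i j : B) : cl M (i, j) + cl M (j, i) = 0 := by
  unfold cl
  rw [← map_add, QuotientAddGroup.mk'_apply, QuotientAddGroup.eq_zero_iff]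
  exact AddSubgroup.subset_closure (Or.inl (Or.inl (Or.inr ⟨i, j, rfl⟩)))

omit [Fintype B] in
theorem cl_left {i j k : B} (h1 : M i k = 2) (h2 : M j k = 2) (h3 : Odd (M i j)) :
    cl M (i, k) = cl M (j, k) := by
  rw [← sub_eq_zero]
  unfold cl
  rw [← map_sub, QuotientAddGroup.mk'_apply, QuotientAddGroup.eq_zero_iff]
  exact AddSubgroup.subset_closure (Or.inl (Or.inr ⟨i, j, k, h1, h2, h3, rfl⟩))

omit [Fintype B] in
theorem cl_two {i j k : B} (h1 : M i k = 2) (h2 : M i j = 3) (h3 : M j k = 3) :
    cl M (i, k) + cl M (i, k) = 0 := by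
  unfold cl
  rw [← map_add, QuotientAddGroup.mk'_apply, QuotientAddGroup.eq_zero_iff]
  exact AddSubgroup.subset_closure (Or.inr ⟨i, j, k, h1, h2, h3, rfl⟩)

omit [Fintype B] in
theorem cl_neg (i j : B) : cl M (j, i) = - cl M (i, j) :=
  (neg_eq_of_add_eq_zero_right (cl_add M i j)).symm

omit [Fintype B] in
theorem cl_mv {p q : B × B} (h : Mv M p q) : cl M p = cl M q := by
  cases h with
  | left h1 h2 h3 => exact cl_left M h1 h2 h3
  | @right i j k h1 h2 h3 =>
    rw [cl_neg M i k, cl_neg M j k,
      cl_left M (by rw [M.symmetric]; exact h1) (by rw [M.symmetric]; exact h2) h3]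
  | @swap i j k h1 h2 h3 =>
    rw [cl_neg M i k, eq_neg_iff_add_eq_zero]
    exact cl_two M h1 h2 h3

omit [Fintype B] in
theorem cl_eqv {p q : B × B} (h : Eqv M p q) : cl M p = cl M q := by
  induction h with
  | rel x y h => exact cl_mv M h
  | refl x => rfl
  | symm x y _ ih => exact ih.symm
  | trans x y z _ _ ih1 ih2 => exact ih1.trans ih2

theorem mk_eq_sum (x : B × B → ℤ) :
    QuotientAddGroup.mk' (relK M) x = ∑ p, x p • cl M p := by
  have h : x = ∑ p, x p • (Pi.single p (1 : ℤ) : B × B → ℤ) := by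
    conv_lhs => rw [← Finset.univ_sum_single x]
    refine Finset.sum_congr rfl fun p _ => ?_
    rw [← Pi.single_smul, smul_eq_mul, mul_one]
  conv_lhs => rw [h]
  rw [map_sum]
  refine Finset.sum_congr rfl fun p _ => ?_
  rw [map_zsmul]
  rfl

end

theorem sum_zs {ι A : Type} [AddCommGroup A] (s : Finset ι) (f : ι → ℤ) (y : A) :
    (∑ i ∈ s, f i) • y = ∑ i ∈ s, f i • y := Finset.sum_smul

theorem zs_add {A : Type} [AddCommGroup A] (n : ℤ) (x y : A) :
    n • x + n • y = n • (x + y) := (zsmul_add x y n).symm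

theorem zs_two {A : Type} [AddCommGroup A] (n : ℤ) (x : A) (h : x + x = 0) :
    (n + n) • x = 0 := by
  rw [add_zsmul, ← zsmul_add, h, zsmul_zero]

open Classical in
theorem sep_of : Pool.Agent.TH901.H2A.S_sep := by
  intro B _ _ M x h1 h2 h3
  rw [← QuotientAddGroup.eq_zero_iff, ← QuotientAddGroup.mk'_apply, mk_eq_sum]
  rw [← Finset.sum_filter_add_sum_filter_not Finset.univ (fun p : B × B => M p.1 p.2 = 2)]
  have hA : ∑ p ∈ Finset.univ.filter (fun p : B × B => ¬ M p.1 p.2 = 2), x p • cl M p = 0 := by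
    refine Finset.sum_involution (fun p _ => p.swap) ?_ ?_ ?_ ?_
    · rintro ⟨i, j⟩ hp
      simp only [Finset.mem_filter, Finset.mem_univ, true_and] at hp
      by_cases hz : i = j ∨ M i j = 0
      · rw [Prod.swap_prod_mk, cl_neg M i j, cl_zero M hz]
        simp
      · push Not at hz
        rw [Prod.swap_prod_mk, cl_neg M i j, h1 i j hz.1 hz.2 hp]
        simp
    · rintro ⟨i, j⟩ hp hne hsw
      apply hne
      rw [Prod.swap_prod_mk, Prod.mk.injEq] at hsw
      rw [cl_zero M (Or.inl hsw.2), smul_zero]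
    · rintro ⟨i, j⟩ hp
      simp only [Finset.mem_filter, Finset.mem_univ, true_and] at hp ⊢
      rw [Prod.swap_prod_mk, M.symmetric]
      exact hp
    · rintro ⟨i, j⟩ hp
      rfl
  rw [hA, add_zero]
  let s : Setoid (B × B) := Relation.EqvGen.setoid (Mv M)
  have hmk : ∀ p q : B × B, (Quotient.mk s p = Quotient.mk s q) ↔ Eqv M p q :=
    fun p q => Quotient.eq
  let bar : Quotient s → Quotient s := Quotient.map Prod.swap (fun p q h => eqv_swap M h)
  have hbar : ∀ a b : B, bar (Quotient.mk s (a, b)) = Quotient.mk s (b, a) := fun a b => rfl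
  rw [← Finset.sum_fiberwise (Finset.univ.filter (fun p : B × B => M p.1 p.2 = 2))
    (fun p => Quotient.mk s p)]
  have hne2 : ∀ a b : B, M a b ≠ 2 →
      ∑ p ∈ (Finset.univ.filter (fun p : B × B => M p.1 p.2 = 2)).filter
        (fun p => Quotient.mk s p = Quotient.mk s (a, b)), x p • cl M p = 0 := by
    intro a b hab
    refine Finset.sum_eq_zero fun p hp => ?_
    exfalso
    simp only [Finset.mem_filter, Finset.mem_univ, true_and] at hp
    exact hab ((eqv_two M ((hmk _ _).1 hp.2)).1 hp.1)
  have heq2 : ∀ a b : B, M a b = 2 →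
      ∑ p ∈ (Finset.univ.filter (fun p : B × B => M p.1 p.2 = 2)).filter
        (fun p => Quotient.mk s p = Quotient.mk s (a, b)), x p • cl M p =
      (∑ p, (if Eqv M (a, b) p then x p else 0)) • cl M (a, b) := by
    intro a b hab
    refine Eq.trans ?_ (sum_zs _ _ _).symm
    rw [Finset.filter_filter, Finset.sum_filter]
    refine Finset.sum_congr rfl fun p _ => ?_
    by_cases hp : Eqv M (a, b) p
    · have h5 : M p.1 p.2 = 2 := (eqv_two M hp).1 hab
      have h6 : Quotient.mk s p = Quotient.mk s (a, b) :=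
        (hmk _ _).2 (Relation.EqvGen.symm _ _ hp)
      rw [if_pos ⟨h5, h6⟩, if_pos hp, cl_eqv M hp]
    · rw [if_neg hp, zero_smul, if_neg]
      rintro ⟨_, h6⟩
      exact hp (Relation.EqvGen.symm _ _ ((hmk _ _).1 h6))
  have hself : ∀ a b : B, M a b = 2 → Eqv M (a, b) (b, a) →
      (∑ p, (if Eqv M (a, b) p then x p else 0)) • cl M (a, b) = 0 := by
    intro a b hab he
    obtain ⟨n, hn⟩ := h3 a b hab he
    rw [hn]
    refine zs_two _ _ ?_
    have := cl_add M a b
    rw [← cl_eqv M he] at this
    exact this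
  refine Finset.sum_involution (fun c _ => bar c) ?_ ?_ ?_ ?_
  · intro c _
    induction c using Quotient.inductionOn with
    | h p =>
      obtain ⟨a, b⟩ := p
      rw [hbar]
      by_cases hab : M a b = 2
      · have hba : M b a = 2 := by rw [M.symmetric]; exact hab
        rw [heq2 a b hab, heq2 b a hba]
        by_cases he : Eqv M (a, b) (b, a)
        · rw [hself a b hab he, hself b a hba (Relation.EqvGen.symm _ _ he), add_zero]
        · rw [h2 a b hab he]
          refine (zs_add _ _ _).trans ?_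
          rw [cl_add, smul_zero]
      · have hba : M b a ≠ 2 := by rw [M.symmetric]; exact hab
        rw [hne2 a b hab, hne2 b a hba, add_zero]
  · intro c _
    induction c using Quotient.inductionOn with
    | h p =>
      obtain ⟨a, b⟩ := p
      intro hne hb
      rw [hbar] at hb
      have he : Eqv M (b, a) (a, b) := (hmk _ _).1 hb
      apply hne
      by_cases hab : M a b = 2
      · rw [heq2 a b hab]
        exact hself a b hab (Relation.EqvGen.symm _ _ he)
      · exact hne2 a b hab
  · intro c _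
    exact Finset.mem_univ _
  · intro c _
    induction c using Quotient.inductionOn with
    | h p => rfl

end Pool.Agent.TH920.H2A
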